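import Pool.Agent.X234.EE.Final

/-!
# MP_ee25d9_nt, Q1: `S(p,r) ≡ 0 (mod p^4)` for all primes `p ≡ 3 (mod 4)`, `p > 3`, and all `r ≥ 1`
-/

set_option autoImplicit false

namespace Pool.Agent.Results.MP_ee25d9_nt.ModPFour

open Finset

/-- `a_k`, the `k`-th term of the self-convolution of the cubes of the central binomial
coefficients. -/
def a (k : ℕ) : ℕ :=
  ∑ j ∈ range (k + 1), ((2 * j).choose j) ^ 3 * ((2 * k - 2 * j).choose (k - j)) ^ 3

/-- `S(p, r)`, the sum of `a_k / 64^k` over `0 ≤ k ≤ p^r - 1`. -/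
def S (p r : ℕ) : ℚ := ∑ k ∈ range (p ^ r), (a k : ℚ) / 64 ^ k

/-- For every prime `p > 3` with `p ≡ 3 (mod 4)` and every `r ≥ 1`, the rational number `S(p,r)`
is zero or has `p`-adic valuation at least `4`. -/
theorem result : ∀ p r : ℕ, p.Prime → 3 < p → p % 4 = 3 → 1 ≤ r →
    S p r = 0 ∨ (4 : ℤ) ≤ padicValRat p (S p r) := by
  intro p r hp h3 h4 hr
  haveI : Fact p.Prime := ⟨hp⟩
  have h := X234.EE.congr_four (p := p) h3 h4 r hr
  have e : S p r = X234.EE.SS p r := by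
    unfold S X234.EE.SS a
    refine sum_congr rfl fun k _ => ?_
    congr 1
    push_cast
    refine sum_congr rfl fun j _ => ?_
    rw [Nat.mul_sub]
  rw [e]
  exact h

end Pool.Agent.Results.MP_ee25d9_nt.ModPFour
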